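import Pool.Agent.Y440.K.Fast
import Pool.Agent.Y440.B.Blk

/-! The inequality for all extensions of some of the structures on seven points. -/

set_option autoImplicit false
set_option maxRecDepth 100000

namespace Pool.Agent.Y440.L

open Pool.Agent.Y440

def x3386 : B.chkB K.leaf2 3386 = true := by decide +kernel

def x3400 : B.chkB K.leaf2 3400 = true := by decide +kernel

def x11448 : B.chkB K.leaf2 11448 = true := by decide +kernel

def x12537 : B.chkB K.leaf2 12537 = true := by decide +kernel

def x12771 : B.chkB K.leaf2 12771 = true := by decide +kernel

def x15610 : B.chkB K.leaf2 15610 = true := by decide +kernel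

def x76987 : B.chkB K.leaf2 76987 = true := by decide +kernel

def x78046 : B.chkB K.leaf2 78046 = true := by decide +kernel

theorem m01 : ∀ r ∈ ([3386, 3400, 11448, 12537, 12771, 15610, 76987, 78046] : List ℕ), B.chkB K.leaf2 r = true := by
  intro r h
  simp only [List.mem_cons, List.not_mem_nil, or_false] at h
  rcases h with h | h | h | h | h | h | h | h
  · rw [h]; exact x3386
  · rw [h]; exact x3400
  · rw [h]; exact x11448
  · rw [h]; exact x12537
  · rw [h]; exact x12771
  · rw [h]; exact x15610
  · rw [h]; exact x76987
  · rw [h]; exact x78046

end Pool.Agent.Y440.L
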