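import Pool.Agent.Y440.K.Fast
import Pool.Agent.Y440.B.Blk

/-! The inequality for all extensions of some of the structures on seven points. -/

set_option autoImplicit false
set_option maxRecDepth 100000

namespace Pool.Agent.Y440.L

open Pool.Agent.Y440

def x1196 : B.chkB K.leaf2 1196 = true := by decide +kernel

def x3349 : B.chkB K.leaf2 3349 = true := by decide +kernel

def x11510 : B.chkB K.leaf2 11510 = true := by decide +kernel

def x12511 : B.chkB K.leaf2 12511 = true := by decide +kernel

def x13797 : B.chkB K.leaf2 13797 = true := by decide +kernel

def x31201 : B.chkB K.leaf2 31201 = true := by decide +kernel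

def x65527 : B.chkB K.leaf2 65527 = true := by decide +kernel

def x78045 : B.chkB K.leaf2 78045 = true := by decide +kernel

def x78140 : B.chkB K.leaf2 78140 = true := by decide +kernel

theorem m02 : ∀ r ∈ ([1196, 3349, 11510, 12511, 13797, 31201, 65527, 78045, 78140] : List ℕ), B.chkB K.leaf2 r = true := by
  intro r h
  simp only [List.mem_cons, List.not_mem_nil, or_false] at h
  rcases h with h | h | h | h | h | h | h | h | h
  · rw [h]; exact x1196
  · rw [h]; exact x3349
  · rw [h]; exact x11510
  · rw [h]; exact x12511
  · rw [h]; exact x13797
  · rw [h]; exact x31201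
  · rw [h]; exact x65527
  · rw [h]; exact x78045
  · rw [h]; exact x78140

end Pool.Agent.Y440.L
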