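import Pool.Agent.Y440.K.Fast
import Pool.Agent.Y440.B.Blk

/-! The inequality for all extensions of some of the structures on seven points. -/

set_option autoImplicit false
set_option maxRecDepth 100000

namespace Pool.Agent.Y440.L

open Pool.Agent.Y440

def x1135 : B.chkB K.leaf2 1135 = true := by decide +kernel

def x1188 : B.chkB K.leaf2 1188 = true := by decide +kernel

def x3383 : B.chkB K.leaf2 3383 = true := by decide +kernel

def x13685 : B.chkB K.leaf2 13685 = true := by decide +kernel

def x15864 : B.chkB K.leaf2 15864 = true := by decide +kernel

def x31205 : B.chkB K.leaf2 31205 = true := by decide +kernel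

def x78137 : B.chkB K.leaf2 78137 = true := by decide +kernel

def x79231 : B.chkB K.leaf2 79231 = true := by decide +kernel

theorem m03 : ∀ r ∈ ([1135, 1188, 3383, 13685, 15864, 31205, 78137, 79231] : List ℕ), B.chkB K.leaf2 r = true := by
  intro r h
  simp only [List.mem_cons, List.not_mem_nil, or_false] at h
  rcases h with h | h | h | h | h | h | h | h
  · rw [h]; exact x1135
  · rw [h]; exact x1188
  · rw [h]; exact x3383
  · rw [h]; exact x13685
  · rw [h]; exact x15864
  · rw [h]; exact x31205
  · rw [h]; exact x78137
  · rw [h]; exact x79231

end Pool.Agent.Y440.L
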