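import Pool.Agent.Y440.K.Fast
import Pool.Agent.Y440.B.Blk

/-! The inequality for all extensions of some of the structures on seven points. -/

set_option autoImplicit false
set_option maxRecDepth 100000

namespace Pool.Agent.Y440.L

open Pool.Agent.Y440

def x1192 : B.chkB K.leaf2 1192 = true := by decide +kernel

def x3454 : B.chkB K.leaf2 3454 = true := by decide +kernel

def x7389 : B.chkB K.leaf2 7389 = true := by decide +kernel

def x11459 : B.chkB K.leaf2 11459 = true := by decide +kernel

def x13561 : B.chkB K.leaf2 13561 = true := by decide +kernel

def x15732 : B.chkB K.leaf2 15732 = true := by decide +kernel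

def x15740 : B.chkB K.leaf2 15740 = true := by decide +kernel

def x15866 : B.chkB K.leaf2 15866 = true := by decide +kernel

def x120813 : B.chkB K.leaf2 120813 = true := by decide +kernel

theorem m04 : ∀ r ∈ ([1192, 3454, 7389, 11459, 13561, 15732, 15740, 15866, 120813] : List ℕ), B.chkB K.leaf2 r = true := by
  intro r h
  simp only [List.mem_cons, List.not_mem_nil, or_false] at h
  rcases h with h | h | h | h | h | h | h | h | h
  · rw [h]; exact x1192
  · rw [h]; exact x3454
  · rw [h]; exact x7389
  · rw [h]; exact x11459
  · rw [h]; exact x13561
  · rw [h]; exact x15732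
  · rw [h]; exact x15740
  · rw [h]; exact x15866
  · rw [h]; exact x120813

end Pool.Agent.Y440.L
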