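import Pool.Agent.Y440.K.Fast
import Pool.Agent.Y440.B.Blk

/-! The inequality for all extensions of some of the structures on seven points. -/

set_option autoImplicit false
set_option maxRecDepth 100000

namespace Pool.Agent.Y440.L

open Pool.Agent.Y440

def x1064 : B.chkB K.leaf2 1064 = true := by decide +kernel

def x1279 : B.chkB K.leaf2 1279 = true := by decide +kernel

def x3420 : B.chkB K.leaf2 3420 = true := by decide +kernel

def x7388 : B.chkB K.leaf2 7388 = true := by decide +kernel

def x13547 : B.chkB K.leaf2 13547 = true := by decide +kernel

def x31203 : B.chkB K.leaf2 31203 = true := by decide +kernel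

def x76985 : B.chkB K.leaf2 76985 = true := by decide +kernel

def x81151 : B.chkB K.leaf2 81151 = true := by decide +kernel

theorem m05 : ∀ r ∈ ([1064, 1279, 3420, 7388, 13547, 31203, 76985, 81151] : List ℕ), B.chkB K.leaf2 r = true := by
  intro r h
  simp only [List.mem_cons, List.not_mem_nil, or_false] at h
  rcases h with h | h | h | h | h | h | h | h
  · rw [h]; exact x1064
  · rw [h]; exact x1279
  · rw [h]; exact x3420
  · rw [h]; exact x7388
  · rw [h]; exact x13547
  · rw [h]; exact x31203
  · rw [h]; exact x76985
  · rw [h]; exact x81151

end Pool.Agent.Y440.L
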