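import Pool.Agent.Y440.K.Fast
import Pool.Agent.Y440.B.Blk

/-! The inequality for all extensions of some of the structures on seven points. -/

set_option autoImplicit false
set_option maxRecDepth 100000

namespace Pool.Agent.Y440.L

open Pool.Agent.Y440

def x0 : B.chkB K.leaf2 0 = true := by decide +kernel

def x1052 : B.chkB K.leaf2 1052 = true := by decide +kernel

def x3351 : B.chkB K.leaf2 3351 = true := by decide +kernel

def x3390 : B.chkB K.leaf2 3390 = true := by decide +kernel

def x7375 : B.chkB K.leaf2 7375 = true := by decide +kernel

def x7386 : B.chkB K.leaf2 7386 = true := by decide +kernel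

def x11485 : B.chkB K.leaf2 11485 = true := by decide +kernel

def x15609 : B.chkB K.leaf2 15609 = true := by decide +kernel

def x79070 : B.chkB K.leaf2 79070 = true := by decide +kernel

def x88542 : B.chkB K.leaf2 88542 = true := by decide +kernel

theorem m06 : ∀ r ∈ ([0, 1052, 3351, 3390, 7375, 7386, 11485, 15609, 79070, 88542] : List ℕ), B.chkB K.leaf2 r = true := by
  intro r h
  simp only [List.mem_cons, List.not_mem_nil, or_false] at h
  rcases h with h | h | h | h | h | h | h | h | h | h
  · rw [h]; exact x0
  · rw [h]; exact x1052
  · rw [h]; exact x3351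
  · rw [h]; exact x3390
  · rw [h]; exact x7375
  · rw [h]; exact x7386
  · rw [h]; exact x11485
  · rw [h]; exact x15609
  · rw [h]; exact x79070
  · rw [h]; exact x88542

end Pool.Agent.Y440.L
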