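import Pool.Agent.Y440.K.Fast
import Pool.Agent.Y440.B.Blk

/-! The inequality for all extensions of some of the structures on seven points. -/

set_option autoImplicit false
set_option maxRecDepth 100000

namespace Pool.Agent.Y440.L

open Pool.Agent.Y440

def x59 : B.chkB K.leaf2 59 = true := by decide +kernel

def x1150 : B.chkB K.leaf2 1150 = true := by decide +kernel

def x3219 : B.chkB K.leaf2 3219 = true := by decide +kernel

def x3374 : B.chkB K.leaf2 3374 = true := by decide +kernel

def x15803 : B.chkB K.leaf2 15803 = true := by decide +kernel

def x31215 : B.chkB K.leaf2 31215 = true := by decide +kernel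

def x78044 : B.chkB K.leaf2 78044 = true := by decide +kernel

def x89564 : B.chkB K.leaf2 89564 = true := by decide +kernel

theorem m07 : ∀ r ∈ ([59, 1150, 3219, 3374, 15803, 31215, 78044, 89564] : List ℕ), B.chkB K.leaf2 r = true := by
  intro r h
  simp only [List.mem_cons, List.not_mem_nil, or_false] at h
  rcases h with h | h | h | h | h | h | h | h
  · rw [h]; exact x59
  · rw [h]; exact x1150
  · rw [h]; exact x3219
  · rw [h]; exact x3374
  · rw [h]; exact x15803
  · rw [h]; exact x31215
  · rw [h]; exact x78044
  · rw [h]; exact x89564

end Pool.Agent.Y440.L
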