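import Pool.Agent.Y440.K.Fast
import Pool.Agent.Y440.B.Blk

/-! The inequality for all extensions of some of the structures on seven points. -/

set_option autoImplicit false
set_option maxRecDepth 100000

namespace Pool.Agent.Y440.L

open Pool.Agent.Y440

def x29 : B.chkB K.leaf2 29 = true := by decide +kernel

def x3422 : B.chkB K.leaf2 3422 = true := by decide +kernel

def x12646 : B.chkB K.leaf2 12646 = true := by decide +kernel

def x13798 : B.chkB K.leaf2 13798 = true := by decide +kernel

def x31221 : B.chkB K.leaf2 31221 = true := by decide +kernel

def x78142 : B.chkB K.leaf2 78142 = true := by decide +kernel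

def x79068 : B.chkB K.leaf2 79068 = true := by decide +kernel

def x79069 : B.chkB K.leaf2 79069 = true := by decide +kernel

theorem m08 : ∀ r ∈ ([29, 3422, 12646, 13798, 31221, 78142, 79068, 79069] : List ℕ), B.chkB K.leaf2 r = true := by
  intro r h
  simp only [List.mem_cons, List.not_mem_nil, or_false] at h
  rcases h with h | h | h | h | h | h | h | h
  · rw [h]; exact x29
  · rw [h]; exact x3422
  · rw [h]; exact x12646
  · rw [h]; exact x13798
  · rw [h]; exact x31221
  · rw [h]; exact x78142
  · rw [h]; exact x79068
  · rw [h]; exact x79069

end Pool.Agent.Y440.L
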