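import Pool.Agent.Y440.K.Fast
import Pool.Agent.Y440.B.Blk

/-! The inequality for all extensions of some of the structures on seven points. -/

set_option autoImplicit false
set_option maxRecDepth 100000

namespace Pool.Agent.Y440.L

open Pool.Agent.Y440

def x15 : B.chkB K.leaf2 15 = true := by decide +kernel

def x3366 : B.chkB K.leaf2 3366 = true := by decide +kernel

def x11463 : B.chkB K.leaf2 11463 = true := by decide +kernel

def x11484 : B.chkB K.leaf2 11484 = true := by decide +kernel

def x12502 : B.chkB K.leaf2 12502 = true := by decide +kernel

def x12539 : B.chkB K.leaf2 12539 = true := by decide +kernel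

def x13684 : B.chkB K.leaf2 13684 = true := by decide +kernel

def x65535 : B.chkB K.leaf2 65535 = true := by decide +kernel

def x97783 : B.chkB K.leaf2 97783 = true := by decide +kernel

def x120805 : B.chkB K.leaf2 120805 = true := by decide +kernel

theorem m09 : ∀ r ∈ ([15, 3366, 11463, 11484, 12502, 12539, 13684, 65535, 97783, 120805] : List ℕ), B.chkB K.leaf2 r = true := by
  intro r h
  simp only [List.mem_cons, List.not_mem_nil, or_false] at h
  rcases h with h | h | h | h | h | h | h | h | h | h
  · rw [h]; exact x15
  · rw [h]; exact x3366
  · rw [h]; exact x11463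
  · rw [h]; exact x11484
  · rw [h]; exact x12502
  · rw [h]; exact x12539
  · rw [h]; exact x13684
  · rw [h]; exact x65535
  · rw [h]; exact x97783
  · rw [h]; exact x120805

end Pool.Agent.Y440.L
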