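import Pool.Agent.Y440.K.Fast
import Pool.Agent.Y440.B.Blk

/-! The inequality for all extensions of some of the structures on seven points. -/

set_option autoImplicit false
set_option maxRecDepth 100000

namespace Pool.Agent.Y440.L

open Pool.Agent.Y440

def x7 : B.chkB K.leaf2 7 = true := by decide +kernel

def x1211 : B.chkB K.leaf2 1211 = true := by decide +kernel

def x3134 : B.chkB K.leaf2 3134 = true := by decide +kernel

def x3221 : B.chkB K.leaf2 3221 = true := by decide +kernel

def x3372 : B.chkB K.leaf2 3372 = true := by decide +kernel

def x3388 : B.chkB K.leaf2 3388 = true := by decide +kernel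

def x12783 : B.chkB K.leaf2 12783 = true := by decide +kernel

def x81260 : B.chkB K.leaf2 81260 = true := by decide +kernel

theorem m10 : ∀ r ∈ ([7, 1211, 3134, 3221, 3372, 3388, 12783, 81260] : List ℕ), B.chkB K.leaf2 r = true := by
  intro r h
  simp only [List.mem_cons, List.not_mem_nil, or_false] at h
  rcases h with h | h | h | h | h | h | h | h
  · rw [h]; exact x7
  · rw [h]; exact x1211
  · rw [h]; exact x3134
  · rw [h]; exact x3221
  · rw [h]; exact x3372
  · rw [h]; exact x3388
  · rw [h]; exact x12783
  · rw [h]; exact x81260

end Pool.Agent.Y440.L
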