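import Pool.Agent.Y440.K.Fast
import Pool.Agent.Y440.B.Blk

/-! The inequality for all extensions of some of the structures on seven points. -/

set_option autoImplicit false
set_option maxRecDepth 100000

namespace Pool.Agent.Y440.L

open Pool.Agent.Y440

def x28 : B.chkB K.leaf2 28 = true := by decide +kernel

def x1063 : B.chkB K.leaf2 1063 = true := by decide +kernel

def x11480 : B.chkB K.leaf2 11480 = true := by decide +kernel

def x15801 : B.chkB K.leaf2 15801 = true := by decide +kernel

def x15828 : B.chkB K.leaf2 15828 = true := by decide +kernel

def x65520 : B.chkB K.leaf2 65520 = true := by decide +kernel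

def x79071 : B.chkB K.leaf2 79071 = true := by decide +kernel

def x88527 : B.chkB K.leaf2 88527 = true := by decide +kernel

def x97791 : B.chkB K.leaf2 97791 = true := by decide +kernel

theorem m11 : ∀ r ∈ ([28, 1063, 11480, 15801, 15828, 65520, 79071, 88527, 97791] : List ℕ), B.chkB K.leaf2 r = true := by
  intro r h
  simp only [List.mem_cons, List.not_mem_nil, or_false] at h
  rcases h with h | h | h | h | h | h | h | h | h
  · rw [h]; exact x28
  · rw [h]; exact x1063
  · rw [h]; exact x11480
  · rw [h]; exact x15801
  · rw [h]; exact x15828
  · rw [h]; exact x65520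
  · rw [h]; exact x79071
  · rw [h]; exact x88527
  · rw [h]; exact x97791

end Pool.Agent.Y440.L
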