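import Pool.Agent.Y440.K.Fast
import Pool.Agent.Y440.B.Blk

/-! The inequality for all extensions of some of the structures on seven points. -/

set_option autoImplicit false
set_option maxRecDepth 100000

namespace Pool.Agent.Y440.L

open Pool.Agent.Y440

def x1070 : B.chkB K.leaf2 1070 = true := by decide +kernel

def x7369 : B.chkB K.leaf2 7369 = true := by decide +kernel

def x11475 : B.chkB K.leaf2 11475 = true := by decide +kernel

def x11512 : B.chkB K.leaf2 11512 = true := by decide +kernel

def x12768 : B.chkB K.leaf2 12768 = true := by decide +kernel

def x13689 : B.chkB K.leaf2 13689 = true := by decide +kernel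

def x15615 : B.chkB K.leaf2 15615 = true := by decide +kernel

def x31219 : B.chkB K.leaf2 31219 = true := by decide +kernel

def x31220 : B.chkB K.leaf2 31220 = true := by decide +kernel

def x65523 : B.chkB K.leaf2 65523 = true := by decide +kernel

theorem m12 : ∀ r ∈ ([1070, 7369, 11475, 11512, 12768, 13689, 15615, 31219, 31220, 65523] : List ℕ), B.chkB K.leaf2 r = true := by
  intro r h
  simp only [List.mem_cons, List.not_mem_nil, or_false] at h
  rcases h with h | h | h | h | h | h | h | h | h | h
  · rw [h]; exact x1070
  · rw [h]; exact x7369
  · rw [h]; exact x11475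
  · rw [h]; exact x11512
  · rw [h]; exact x12768
  · rw [h]; exact x13689
  · rw [h]; exact x15615
  · rw [h]; exact x31219
  · rw [h]; exact x31220
  · rw [h]; exact x65523

end Pool.Agent.Y440.L
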