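import Pool.Agent.Y440.K.Fast
import Pool.Agent.Y440.B.Blk

/-! The inequality for all extensions of some of the structures on seven points. -/

set_option autoImplicit false
set_option maxRecDepth 100000

namespace Pool.Agent.Y440.L

open Pool.Agent.Y440

def x1516 : B.chkB K.leaf2 1516 = true := by decide +kernel

def x3228 : B.chkB K.leaf2 3228 = true := by decide +kernel

def x3373 : B.chkB K.leaf2 3373 = true := by decide +kernel

def x7353 : B.chkB K.leaf2 7353 = true := by decide +kernel

def x15836 : B.chkB K.leaf2 15836 = true := by decide +kernel

def x79086 : B.chkB K.leaf2 79086 = true := by decide +kernel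

def x79212 : B.chkB K.leaf2 79212 = true := by decide +kernel

def x81261 : B.chkB K.leaf2 81261 = true := by decide +kernel

theorem m13 : ∀ r ∈ ([1516, 3228, 3373, 7353, 15836, 79086, 79212, 81261] : List ℕ), B.chkB K.leaf2 r = true := by
  intro r h
  simp only [List.mem_cons, List.not_mem_nil, or_false] at h
  rcases h with h | h | h | h | h | h | h | h
  · rw [h]; exact x1516
  · rw [h]; exact x3228
  · rw [h]; exact x3373
  · rw [h]; exact x7353
  · rw [h]; exact x15836
  · rw [h]; exact x79086
  · rw [h]; exact x79212
  · rw [h]; exact x81261

end Pool.Agent.Y440.L
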