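import Pool.Agent.Y440.K.Fast
import Pool.Agent.Y440.B.Blk

/-! The inequality for all extensions of some of the structures on seven points. -/

set_option autoImplicit false
set_option maxRecDepth 100000

namespace Pool.Agent.Y440.L

open Pool.Agent.Y440

def x1197 : B.chkB K.leaf2 1197 = true := by decide +kernel

def x3229 : B.chkB K.leaf2 3229 = true := by decide +kernel

def x3290 : B.chkB K.leaf2 3290 = true := by decide +kernel

def x7422 : B.chkB K.leaf2 7422 = true := by decide +kernel

def x11481 : B.chkB K.leaf2 11481 = true := by decide +kernel

def x13814 : B.chkB K.leaf2 13814 = true := by decide +kernel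

def x15869 : B.chkB K.leaf2 15869 = true := by decide +kernel

def x96761 : B.chkB K.leaf2 96761 = true := by decide +kernel

theorem m14 : ∀ r ∈ ([1197, 3229, 3290, 7422, 11481, 13814, 15869, 96761] : List ℕ), B.chkB K.leaf2 r = true := by
  intro r h
  simp only [List.mem_cons, List.not_mem_nil, or_false] at h
  rcases h with h | h | h | h | h | h | h | h
  · rw [h]; exact x1197
  · rw [h]; exact x3229
  · rw [h]; exact x3290
  · rw [h]; exact x7422
  · rw [h]; exact x11481
  · rw [h]; exact x13814
  · rw [h]; exact x15869
  · rw [h]; exact x96761

end Pool.Agent.Y440.L
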