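import Pool.Agent.Y440.K.Fast
import Pool.Agent.Y440.B.Blk

/-! The inequality for all extensions of some of the structures on seven points. -/

set_option autoImplicit false
set_option maxRecDepth 100000

namespace Pool.Agent.Y440.L

open Pool.Agent.Y440

def x1245 : B.chkB K.leaf2 1245 = true := by decide +kernel

def x1261 : B.chkB K.leaf2 1261 = true := by decide +kernel

def x3389 : B.chkB K.leaf2 3389 = true := by decide +kernel

def x78172 : B.chkB K.leaf2 78172 = true := by decide +kernel

def x79308 : B.chkB K.leaf2 79308 = true := by decide +kernel

def x79309 : B.chkB K.leaf2 79309 = true := by decide +kernel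

def x81279 : B.chkB K.leaf2 81279 = true := by decide +kernel

def x88540 : B.chkB K.leaf2 88540 = true := by decide +kernel

def x1048575 : B.chkB K.leaf2 1048575 = true := by decide +kernel

theorem m15 : ∀ r ∈ ([1245, 1261, 3389, 78172, 79308, 79309, 81279, 88540, 1048575] : List ℕ), B.chkB K.leaf2 r = true := by
  intro r h
  simp only [List.mem_cons, List.not_mem_nil, or_false] at h
  rcases h with h | h | h | h | h | h | h | h | h
  · rw [h]; exact x1245
  · rw [h]; exact x1261
  · rw [h]; exact x3389
  · rw [h]; exact x78172
  · rw [h]; exact x79308
  · rw [h]; exact x79309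
  · rw [h]; exact x81279
  · rw [h]; exact x88540
  · rw [h]; exact x1048575

end Pool.Agent.Y440.L
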