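import Pool.Agent.Y440.K.Fast
import Pool.Agent.Y440.B.Blk

/-! The inequality for all extensions of some of the structures on seven points. -/

set_option autoImplicit false
set_option maxRecDepth 100000

namespace Pool.Agent.Y440.L

open Pool.Agent.Y440

def x1066 : B.chkB K.leaf2 1066 = true := by decide +kernel

def x1079 : B.chkB K.leaf2 1079 = true := by decide +kernel

def x3135 : B.chkB K.leaf2 3135 = true := by decide +kernel

def x3385 : B.chkB K.leaf2 3385 = true := by decide +kernel

def x13812 : B.chkB K.leaf2 13812 = true := by decide +kernel

def x79213 : B.chkB K.leaf2 79213 = true := by decide +kernel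

def x79215 : B.chkB K.leaf2 79215 = true := by decide +kernel

def x79341 : B.chkB K.leaf2 79341 = true := by decide +kernel

theorem m17 : ∀ r ∈ ([1066, 1079, 3135, 3385, 13812, 79213, 79215, 79341] : List ℕ), B.chkB K.leaf2 r = true := by
  intro r h
  simp only [List.mem_cons, List.not_mem_nil, or_false] at h
  rcases h with h | h | h | h | h | h | h | h
  · rw [h]; exact x1066
  · rw [h]; exact x1079
  · rw [h]; exact x3135
  · rw [h]; exact x3385
  · rw [h]; exact x13812
  · rw [h]; exact x79213
  · rw [h]; exact x79215
  · rw [h]; exact x79341

end Pool.Agent.Y440.L
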