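import Pool.Agent.Y440.K.Fast
import Pool.Agent.Y440.B.Blk

/-! The inequality for all extensions of some of the structures on seven points. -/

set_option autoImplicit false
set_option maxRecDepth 100000

namespace Pool.Agent.Y440.L

open Pool.Agent.Y440

def x1260 : B.chkB K.leaf2 1260 = true := by decide +kernel

def x3166 : B.chkB K.leaf2 3166 = true := by decide +kernel

def x3259 : B.chkB K.leaf2 3259 = true := by decide +kernel

def x3279 : B.chkB K.leaf2 3279 = true := by decide +kernel

def x12643 : B.chkB K.leaf2 12643 = true := by decide +kernel

def x13533 : B.chkB K.leaf2 13533 = true := by decide +kernel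

def x15865 : B.chkB K.leaf2 15865 = true := by decide +kernel

def x78190 : B.chkB K.leaf2 78190 = true := by decide +kernel

def x122835 : B.chkB K.leaf2 122835 = true := by decide +kernel

theorem m18 : ∀ r ∈ ([1260, 3166, 3259, 3279, 12643, 13533, 15865, 78190, 122835] : List ℕ), B.chkB K.leaf2 r = true := by
  intro r h
  simp only [List.mem_cons, List.not_mem_nil, or_false] at h
  rcases h with h | h | h | h | h | h | h | h | h
  · rw [h]; exact x1260
  · rw [h]; exact x3166
  · rw [h]; exact x3259
  · rw [h]; exact x3279
  · rw [h]; exact x12643
  · rw [h]; exact x13533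
  · rw [h]; exact x15865
  · rw [h]; exact x78190
  · rw [h]; exact x122835

end Pool.Agent.Y440.L
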