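import Pool.Agent.Y440.K.Fast
import Pool.Agent.Y440.B.Blk

/-! The inequality for all extensions of some of the structures on seven points. -/

set_option autoImplicit false
set_option maxRecDepth 100000

namespace Pool.Agent.Y440.L

open Pool.Agent.Y440

def x20 : B.chkB K.leaf2 20 = true := by decide +kernel

def x1247 : B.chkB K.leaf2 1247 = true := by decide +kernel

def x3164 : B.chkB K.leaf2 3164 = true := by decide +kernel

def x7390 : B.chkB K.leaf2 7390 = true := by decide +kernel

def x11477 : B.chkB K.leaf2 11477 = true := by decide +kernel

def x12591 : B.chkB K.leaf2 12591 = true := by decide +kernel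

def x12651 : B.chkB K.leaf2 12651 = true := by decide +kernel

def x78047 : B.chkB K.leaf2 78047 = true := by decide +kernel

theorem m19 : ∀ r ∈ ([20, 1247, 3164, 7390, 11477, 12591, 12651, 78047] : List ℕ), B.chkB K.leaf2 r = true := by
  intro r h
  simp only [List.mem_cons, List.not_mem_nil, or_false] at h
  rcases h with h | h | h | h | h | h | h | h
  · rw [h]; exact x20
  · rw [h]; exact x1247
  · rw [h]; exact x3164
  · rw [h]; exact x7390
  · rw [h]; exact x11477
  · rw [h]; exact x12591
  · rw [h]; exact x12651
  · rw [h]; exact x78047

end Pool.Agent.Y440.L
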