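import Pool.Agent.Y440.K.Fast
import Pool.Agent.Y440.B.Blk

/-! The inequality for all extensions of some of the structures on seven points. -/

set_option autoImplicit false
set_option maxRecDepth 100000

namespace Pool.Agent.Y440.L

open Pool.Agent.Y440

def x3273 : B.chkB K.leaf2 3273 = true := by decide +kernel

def x11487 : B.chkB K.leaf2 11487 = true := by decide +kernel

def x13564 : B.chkB K.leaf2 13564 = true := by decide +kernel

def x13796 : B.chkB K.leaf2 13796 = true := by decide +kernel

def x13821 : B.chkB K.leaf2 13821 = true := by decide +kernel

def x31217 : B.chkB K.leaf2 31217 = true := by decide +kernel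

def x76983 : B.chkB K.leaf2 76983 = true := by decide +kernel

def x78141 : B.chkB K.leaf2 78141 = true := by decide +kernel

theorem m20 : ∀ r ∈ ([3273, 11487, 13564, 13796, 13821, 31217, 76983, 78141] : List ℕ), B.chkB K.leaf2 r = true := by
  intro r h
  simp only [List.mem_cons, List.not_mem_nil, or_false] at h
  rcases h with h | h | h | h | h | h | h | h
  · rw [h]; exact x3273
  · rw [h]; exact x11487
  · rw [h]; exact x13564
  · rw [h]; exact x13796
  · rw [h]; exact x13821
  · rw [h]; exact x31217
  · rw [h]; exact x76983
  · rw [h]; exact x78141

end Pool.Agent.Y440.L
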