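import Pool.Agent.Y440.K.Fast
import Pool.Agent.Y440.B.Blk

/-! The inequality for all extensions of some of the structures on seven points. -/

set_option autoImplicit false
set_option maxRecDepth 100000

namespace Pool.Agent.Y440.L

open Pool.Agent.Y440

def x1228 : B.chkB K.leaf2 1228 = true := by decide +kernel

def x3220 : B.chkB K.leaf2 3220 = true := by decide +kernel

def x3292 : B.chkB K.leaf2 3292 = true := by decide +kernel

def x3391 : B.chkB K.leaf2 3391 = true := by decide +kernel

def x7387 : B.chkB K.leaf2 7387 = true := by decide +kernel

def x12775 : B.chkB K.leaf2 12775 = true := by decide +kernel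

def x81262 : B.chkB K.leaf2 81262 = true := by decide +kernel

def x88535 : B.chkB K.leaf2 88535 = true := by decide +kernel

def x241503 : B.chkB K.leaf2 241503 = true := by decide +kernel

def x242467 : B.chkB K.leaf2 242467 = true := by decide +kernel

theorem m21 : ∀ r ∈ ([1228, 3220, 3292, 3391, 7387, 12775, 81262, 88535, 241503, 242467] : List ℕ), B.chkB K.leaf2 r = true := by
  intro r h
  simp only [List.mem_cons, List.not_mem_nil, or_false] at h
  rcases h with h | h | h | h | h | h | h | h | h | h
  · rw [h]; exact x1228
  · rw [h]; exact x3220
  · rw [h]; exact x3292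
  · rw [h]; exact x3391
  · rw [h]; exact x7387
  · rw [h]; exact x12775
  · rw [h]; exact x81262
  · rw [h]; exact x88535
  · rw [h]; exact x241503
  · rw [h]; exact x242467

end Pool.Agent.Y440.L
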