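import Pool.Agent.Y440.K.Fast
import Pool.Agent.Y440.B.Blk

/-! The inequality for all extensions of some of the structures on seven points. -/

set_option autoImplicit false
set_option maxRecDepth 100000

namespace Pool.Agent.Y440.L

open Pool.Agent.Y440

def x1044 : B.chkB K.leaf2 1044 = true := by decide +kernel

def x3359 : B.chkB K.leaf2 3359 = true := by decide +kernel

def x3367 : B.chkB K.leaf2 3367 = true := by decide +kernel

def x7352 : B.chkB K.leaf2 7352 = true := by decide +kernel

def x12543 : B.chkB K.leaf2 12543 = true := by decide +kernel

def x13550 : B.chkB K.leaf2 13550 = true := by decide +kernel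

def x15608 : B.chkB K.leaf2 15608 = true := by decide +kernel

def x32243 : B.chkB K.leaf2 32243 = true := by decide +kernel

def x78174 : B.chkB K.leaf2 78174 = true := by decide +kernel

theorem m22 : ∀ r ∈ ([1044, 3359, 3367, 7352, 12543, 13550, 15608, 32243, 78174] : List ℕ), B.chkB K.leaf2 r = true := by
  intro r h
  simp only [List.mem_cons, List.not_mem_nil, or_false] at h
  rcases h with h | h | h | h | h | h | h | h | h
  · rw [h]; exact x1044
  · rw [h]; exact x3359
  · rw [h]; exact x3367
  · rw [h]; exact x7352
  · rw [h]; exact x12543
  · rw [h]; exact x13550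
  · rw [h]; exact x15608
  · rw [h]; exact x32243
  · rw [h]; exact x78174

end Pool.Agent.Y440.L
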