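import Pool.Agent.Y440.K.Fast
import Pool.Agent.Y440.B.Blk

/-! The inequality for all extensions of some of the structures on seven points. -/

set_option autoImplicit false
set_option maxRecDepth 100000

namespace Pool.Agent.Y440.L

open Pool.Agent.Y440

def x1535 : B.chkB K.leaf2 1535 = true := by decide +kernel

def x3127 : B.chkB K.leaf2 3127 = true := by decide +kernel

def x3370 : B.chkB K.leaf2 3370 = true := by decide +kernel

def x3439 : B.chkB K.leaf2 3439 = true := by decide +kernel

def x7355 : B.chkB K.leaf2 7355 = true := by decide +kernel

def x12640 : B.chkB K.leaf2 12640 = true := by decide +kernel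

def x15867 : B.chkB K.leaf2 15867 = true := by decide +kernel

def x79310 : B.chkB K.leaf2 79310 = true := by decide +kernel

def x89559 : B.chkB K.leaf2 89559 = true := by decide +kernel

def x119807 : B.chkB K.leaf2 119807 = true := by decide +kernel

theorem m23 : ∀ r ∈ ([1535, 3127, 3370, 3439, 7355, 12640, 15867, 79310, 89559, 119807] : List ℕ), B.chkB K.leaf2 r = true := by
  intro r h
  simp only [List.mem_cons, List.not_mem_nil, or_false] at h
  rcases h with h | h | h | h | h | h | h | h | h | h
  · rw [h]; exact x1535
  · rw [h]; exact x3127
  · rw [h]; exact x3370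
  · rw [h]; exact x3439
  · rw [h]; exact x7355
  · rw [h]; exact x12640
  · rw [h]; exact x15867
  · rw [h]; exact x79310
  · rw [h]; exact x89559
  · rw [h]; exact x119807

end Pool.Agent.Y440.L
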