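import Pool.Agent.Y440.K.Fast
import Pool.Agent.Y440.B.Blk

/-! The inequality for all extensions of some of the structures on seven points. -/

set_option autoImplicit false
set_option maxRecDepth 100000

namespace Pool.Agent.Y440.L

open Pool.Agent.Y440

def x3165 : B.chkB K.leaf2 3165 = true := by decide +kernel

def x3256 : B.chkB K.leaf2 3256 = true := by decide +kernel

def x3294 : B.chkB K.leaf2 3294 = true := by decide +kernel

def x3356 : B.chkB K.leaf2 3356 = true := by decide +kernel

def x3382 : B.chkB K.leaf2 3382 = true := by decide +kernel

def x13813 : B.chkB K.leaf2 13813 = true := by decide +kernel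

def x15614 : B.chkB K.leaf2 15614 = true := by decide +kernel

def x89565 : B.chkB K.leaf2 89565 = true := by decide +kernel

theorem m24 : ∀ r ∈ ([3165, 3256, 3294, 3356, 3382, 13813, 15614, 89565] : List ℕ), B.chkB K.leaf2 r = true := by
  intro r h
  simp only [List.mem_cons, List.not_mem_nil, or_false] at h
  rcases h with h | h | h | h | h | h | h | h
  · rw [h]; exact x3165
  · rw [h]; exact x3256
  · rw [h]; exact x3294
  · rw [h]; exact x3356
  · rw [h]; exact x3382
  · rw [h]; exact x13813
  · rw [h]; exact x15614
  · rw [h]; exact x89565

end Pool.Agent.Y440.L
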