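import Pool.Agent.Y440.K.Fast
import Pool.Agent.Y440.B.Blk

/-! The inequality for all extensions of some of the structures on seven points. -/

set_option autoImplicit false
set_option maxRecDepth 100000

namespace Pool.Agent.Y440.L

open Pool.Agent.Y440

def x220 : B.chkB K.leaf2 220 = true := by decide +kernel

def x3262 : B.chkB K.leaf2 3262 = true := by decide +kernel

def x3357 : B.chkB K.leaf2 3357 = true := by decide +kernel

def x3421 : B.chkB K.leaf2 3421 = true := by decide +kernel

def x77006 : B.chkB K.leaf2 77006 = true := by decide +kernel

def x79196 : B.chkB K.leaf2 79196 = true := by decide +kernel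

def x122843 : B.chkB K.leaf2 122843 = true := by decide +kernel

def x241518 : B.chkB K.leaf2 241518 = true := by decide +kernel

def x243558 : B.chkB K.leaf2 243558 = true := by decide +kernel

theorem m25 : ∀ r ∈ ([220, 3262, 3357, 3421, 77006, 79196, 122843, 241518, 243558] : List ℕ), B.chkB K.leaf2 r = true := by
  intro r h
  simp only [List.mem_cons, List.not_mem_nil, or_false] at h
  rcases h with h | h | h | h | h | h | h | h | h
  · rw [h]; exact x220
  · rw [h]; exact x3262
  · rw [h]; exact x3357
  · rw [h]; exact x3421
  · rw [h]; exact x77006
  · rw [h]; exact x79196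
  · rw [h]; exact x122843
  · rw [h]; exact x241518
  · rw [h]; exact x243558

end Pool.Agent.Y440.L
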