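import Pool.Agent.Y440.K.Fast
import Pool.Agent.Y440.B.Blk

/-! The inequality for all extensions of some of the structures on seven points. -/

set_option autoImplicit false
set_option maxRecDepth 100000

namespace Pool.Agent.Y440.L

open Pool.Agent.Y440

def x1085 : B.chkB K.leaf2 1085 = true := by decide +kernel

def x1086 : B.chkB K.leaf2 1086 = true := by decide +kernel

def x3371 : B.chkB K.leaf2 3371 = true := by decide +kernel

def x3436 : B.chkB K.leaf2 3436 = true := by decide +kernel

def x11478 : B.chkB K.leaf2 11478 = true := by decide +kernel

def x12495 : B.chkB K.leaf2 12495 = true := by decide +kernel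

def x13560 : B.chkB K.leaf2 13560 = true := by decide +kernel

def x13811 : B.chkB K.leaf2 13811 = true := by decide +kernel

def x78143 : B.chkB K.leaf2 78143 = true := by decide +kernel

theorem m26 : ∀ r ∈ ([1085, 1086, 3371, 3436, 11478, 12495, 13560, 13811, 78143] : List ℕ), B.chkB K.leaf2 r = true := by
  intro r h
  simp only [List.mem_cons, List.not_mem_nil, or_false] at h
  rcases h with h | h | h | h | h | h | h | h | h
  · rw [h]; exact x1085
  · rw [h]; exact x1086
  · rw [h]; exact x3371
  · rw [h]; exact x3436
  · rw [h]; exact x11478
  · rw [h]; exact x12495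
  · rw [h]; exact x13560
  · rw [h]; exact x13811
  · rw [h]; exact x78143

end Pool.Agent.Y440.L
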