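import Pool.Agent.Y440.K.Fast
import Pool.Agent.Y440.B.Blk

/-! The inequality for all extensions of some of the structures on seven points. -/

set_option autoImplicit false
set_option maxRecDepth 100000

namespace Pool.Agent.Y440.L

open Pool.Agent.Y440

def x1133 : B.chkB K.leaf2 1133 = true := by decide +kernel

def x1195 : B.chkB K.leaf2 1195 = true := by decide +kernel

def x3263 : B.chkB K.leaf2 3263 = true := by decide +kernel

def x7423 : B.chkB K.leaf2 7423 = true := by decide +kernel

def x11465 : B.chkB K.leaf2 11465 = true := by decide +kernel

def x11515 : B.chkB K.leaf2 11515 = true := by decide +kernel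

def x13558 : B.chkB K.leaf2 13558 = true := by decide +kernel

def x31200 : B.chkB K.leaf2 31200 = true := by decide +kernel

def x78134 : B.chkB K.leaf2 78134 = true := by decide +kernel

def x88575 : B.chkB K.leaf2 88575 = true := by decide +kernel

theorem m27 : ∀ r ∈ ([1133, 1195, 3263, 7423, 11465, 11515, 13558, 31200, 78134, 88575] : List ℕ), B.chkB K.leaf2 r = true := by
  intro r h
  simp only [List.mem_cons, List.not_mem_nil, or_false] at h
  rcases h with h | h | h | h | h | h | h | h | h | h
  · rw [h]; exact x1133
  · rw [h]; exact x1195
  · rw [h]; exact x3263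
  · rw [h]; exact x7423
  · rw [h]; exact x11465
  · rw [h]; exact x11515
  · rw [h]; exact x13558
  · rw [h]; exact x31200
  · rw [h]; exact x78134
  · rw [h]; exact x88575

end Pool.Agent.Y440.L
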