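import Pool.Agent.Y440.K.Fast
import Pool.Agent.Y440.B.Blk

/-! The inequality for all extensions of some of the structures on seven points. -/

set_option autoImplicit false
set_option maxRecDepth 100000

namespace Pool.Agent.Y440.L

open Pool.Agent.Y440

def x1134 : B.chkB K.leaf2 1134 = true := by decide +kernel

def x1191 : B.chkB K.leaf2 1191 = true := by decide +kernel

def x3326 : B.chkB K.leaf2 3326 = true := by decide +kernel

def x3387 : B.chkB K.leaf2 3387 = true := by decide +kernel

def x7371 : B.chkB K.leaf2 7371 = true := by decide +kernel

def x11455 : B.chkB K.leaf2 11455 = true := by decide +kernel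

def x13526 : B.chkB K.leaf2 13526 = true := by decide +kernel

def x15611 : B.chkB K.leaf2 15611 = true := by decide +kernel

def x15859 : B.chkB K.leaf2 15859 = true := by decide +kernel

def x89567 : B.chkB K.leaf2 89567 = true := by decide +kernel

theorem m28 : ∀ r ∈ ([1134, 1191, 3326, 3387, 7371, 11455, 13526, 15611, 15859, 89567] : List ℕ), B.chkB K.leaf2 r = true := by
  intro r h
  simp only [List.mem_cons, List.not_mem_nil, or_false] at h
  rcases h with h | h | h | h | h | h | h | h | h | h
  · rw [h]; exact x1134
  · rw [h]; exact x1191
  · rw [h]; exact x3326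
  · rw [h]; exact x3387
  · rw [h]; exact x7371
  · rw [h]; exact x11455
  · rw [h]; exact x13526
  · rw [h]; exact x15611
  · rw [h]; exact x15859
  · rw [h]; exact x89567

end Pool.Agent.Y440.L
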