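import Pool.Agent.Y440.K.Fast
import Pool.Agent.Y440.B.Blk

/-! The inequality for all extensions of some of the structures on seven points. -/

set_option autoImplicit false
set_option maxRecDepth 100000

namespace Pool.Agent.Y440.L

open Pool.Agent.Y440

def x3131 : B.chkB K.leaf2 3131 = true := by decide +kernel

def x3199 : B.chkB K.leaf2 3199 = true := by decide +kernel

def x3365 : B.chkB K.leaf2 3365 = true := by decide +kernel

def x3419 : B.chkB K.leaf2 3419 = true := by decide +kernel

def x7350 : B.chkB K.leaf2 7350 = true := by decide +kernel

def x11467 : B.chkB K.leaf2 11467 = true := by decide +kernel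

def x12508 : B.chkB K.leaf2 12508 = true := by decide +kernel

def x13815 : B.chkB K.leaf2 13815 = true := by decide +kernel

def x32245 : B.chkB K.leaf2 32245 = true := by decide +kernel

def x241500 : B.chkB K.leaf2 241500 = true := by decide +kernel

theorem m29 : ∀ r ∈ ([3131, 3199, 3365, 3419, 7350, 11467, 12508, 13815, 32245, 241500] : List ℕ), B.chkB K.leaf2 r = true := by
  intro r h
  simp only [List.mem_cons, List.not_mem_nil, or_false] at h
  rcases h with h | h | h | h | h | h | h | h | h | h
  · rw [h]; exact x3131
  · rw [h]; exact x3199
  · rw [h]; exact x3365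
  · rw [h]; exact x3419
  · rw [h]; exact x7350
  · rw [h]; exact x11467
  · rw [h]; exact x12508
  · rw [h]; exact x13815
  · rw [h]; exact x32245
  · rw [h]; exact x241500

end Pool.Agent.Y440.L
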