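import Pool.Agent.Y440.K.Fast
import Pool.Agent.Y440.B.Blk

/-! The inequality for all extensions of some of the structures on seven points. -/

set_option autoImplicit false
set_option maxRecDepth 100000

namespace Pool.Agent.Y440.L

open Pool.Agent.Y440

def x1043 : B.chkB K.leaf2 1043 = true := by decide +kernel

def x1213 : B.chkB K.leaf2 1213 = true := by decide +kernel

def x3254 : B.chkB K.leaf2 3254 = true := by decide +kernel

def x3257 : B.chkB K.leaf2 3257 = true := by decide +kernel

def x7351 : B.chkB K.leaf2 7351 = true := by decide +kernel

def x12534 : B.chkB K.leaf2 12534 = true := by decide +kernel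

def x13545 : B.chkB K.leaf2 13545 = true := by decide +kernel

def x13563 : B.chkB K.leaf2 13563 = true := by decide +kernel

theorem m30 : ∀ r ∈ ([1043, 1213, 3254, 3257, 7351, 12534, 13545, 13563] : List ℕ), B.chkB K.leaf2 r = true := by
  intro r h
  simp only [List.mem_cons, List.not_mem_nil, or_false] at h
  rcases h with h | h | h | h | h | h | h | h
  · rw [h]; exact x1043
  · rw [h]; exact x1213
  · rw [h]; exact x3254
  · rw [h]; exact x3257
  · rw [h]; exact x7351
  · rw [h]; exact x12534
  · rw [h]; exact x13545
  · rw [h]; exact x13563

end Pool.Agent.Y440.L
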