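import Pool.Agent.Y440.K.Fast
import Pool.Agent.Y440.B.Blk

/-! The inequality for all extensions of some of the structures on seven points. -/

set_option autoImplicit false
set_option maxRecDepth 100000

namespace Pool.Agent.Y440.L

open Pool.Agent.Y440

def x1209 : B.chkB K.leaf2 1209 = true := by decide +kernel

def x3293 : B.chkB K.leaf2 3293 = true := by decide +kernel

def x3348 : B.chkB K.leaf2 3348 = true := by decide +kernel

def x7294 : B.chkB K.leaf2 7294 = true := by decide +kernel

def x12647 : B.chkB K.leaf2 12647 = true := by decide +kernel

def x15804 : B.chkB K.leaf2 15804 = true := by decide +kernel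

def x31228 : B.chkB K.leaf2 31228 = true := by decide +kernel

def x78031 : B.chkB K.leaf2 78031 = true := by decide +kernel

def x78207 : B.chkB K.leaf2 78207 = true := by decide +kernel

theorem m31 : ∀ r ∈ ([1209, 3293, 3348, 7294, 12647, 15804, 31228, 78031, 78207] : List ℕ), B.chkB K.leaf2 r = true := by
  intro r h
  simp only [List.mem_cons, List.not_mem_nil, or_false] at h
  rcases h with h | h | h | h | h | h | h | h | h
  · rw [h]; exact x1209
  · rw [h]; exact x3293
  · rw [h]; exact x3348
  · rw [h]; exact x7294
  · rw [h]; exact x12647
  · rw [h]; exact x15804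
  · rw [h]; exact x31228
  · rw [h]; exact x78031
  · rw [h]; exact x78207

end Pool.Agent.Y440.L
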