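import Pool.Agent.Y440.K.Fast
import Pool.Agent.Y440.B.Blk

/-! The inequality for all extensions of some of the structures on seven points. -/

set_option autoImplicit false
set_option maxRecDepth 100000

namespace Pool.Agent.Y440.L

open Pool.Agent.Y440

def x1084 : B.chkB K.leaf2 1084 = true := by decide +kernel

def x3423 : B.chkB K.leaf2 3423 = true := by decide +kernel

def x11443 : B.chkB K.leaf2 11443 = true := by decide +kernel

def x11483 : B.chkB K.leaf2 11483 = true := by decide +kernel

def x11511 : B.chkB K.leaf2 11511 = true := by decide +kernel

def x12535 : B.chkB K.leaf2 12535 = true := by decide +kernel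

def x13693 : B.chkB K.leaf2 13693 = true := by decide +kernel

def x32247 : B.chkB K.leaf2 32247 = true := by decide +kernel

def x78079 : B.chkB K.leaf2 78079 = true := by decide +kernel

def x122844 : B.chkB K.leaf2 122844 = true := by decide +kernel

theorem m32 : ∀ r ∈ ([1084, 3423, 11443, 11483, 11511, 12535, 13693, 32247, 78079, 122844] : List ℕ), B.chkB K.leaf2 r = true := by
  intro r h
  simp only [List.mem_cons, List.not_mem_nil, or_false] at h
  rcases h with h | h | h | h | h | h | h | h | h | h
  · rw [h]; exact x1084
  · rw [h]; exact x3423
  · rw [h]; exact x11443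
  · rw [h]; exact x11483
  · rw [h]; exact x11511
  · rw [h]; exact x12535
  · rw [h]; exact x13693
  · rw [h]; exact x32247
  · rw [h]; exact x78079
  · rw [h]; exact x122844

end Pool.Agent.Y440.L
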