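import Pool.Agent.Y440.K.Fast
import Pool.Agent.Y440.B.Blk

/-! The inequality for all extensions of some of the structures on seven points. -/

set_option autoImplicit false
set_option maxRecDepth 100000

namespace Pool.Agent.Y440.L

open Pool.Agent.Y440

def x1078 : B.chkB K.leaf2 1078 = true := by decide +kernel

def x1262 : B.chkB K.leaf2 1262 = true := by decide +kernel

def x1263 : B.chkB K.leaf2 1263 = true := by decide +kernel

def x3255 : B.chkB K.leaf2 3255 = true := by decide +kernel

def x3455 : B.chkB K.leaf2 3455 = true := by decide +kernel

def x13795 : B.chkB K.leaf2 13795 = true := by decide +kernel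

def x15829 : B.chkB K.leaf2 15829 = true := by decide +kernel

def x89580 : B.chkB K.leaf2 89580 = true := by decide +kernel

theorem m34 : ∀ r ∈ ([1078, 1262, 1263, 3255, 3455, 13795, 15829, 89580] : List ℕ), B.chkB K.leaf2 r = true := by
  intro r h
  simp only [List.mem_cons, List.not_mem_nil, or_false] at h
  rcases h with h | h | h | h | h | h | h | h
  · rw [h]; exact x1078
  · rw [h]; exact x1262
  · rw [h]; exact x1263
  · rw [h]; exact x3255
  · rw [h]; exact x3455
  · rw [h]; exact x13795
  · rw [h]; exact x15829
  · rw [h]; exact x89580

end Pool.Agent.Y440.L
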