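import Pool.Agent.Y440.K.Fast
import Pool.Agent.Y440.B.Blk

/-! The inequality for all extensions of some of the structures on seven points. -/

set_option autoImplicit false
set_option maxRecDepth 100000

namespace Pool.Agent.Y440.L

open Pool.Agent.Y440

def x31 : B.chkB K.leaf2 31 = true := by decide +kernel

def x1071 : B.chkB K.leaf2 1071 = true := by decide +kernel

def x7295 : B.chkB K.leaf2 7295 = true := by decide +kernel

def x7391 : B.chkB K.leaf2 7391 = true := by decide +kernel

def x11451 : B.chkB K.leaf2 11451 = true := by decide +kernel

def x11519 : B.chkB K.leaf2 11519 = true := by decide +kernel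

def x12579 : B.chkB K.leaf2 12579 = true := by decide +kernel

def x12774 : B.chkB K.leaf2 12774 = true := by decide +kernel

def x13532 : B.chkB K.leaf2 13532 = true := by decide +kernel

def x13546 : B.chkB K.leaf2 13546 = true := by decide +kernel

theorem m35 : ∀ r ∈ ([31, 1071, 7295, 7391, 11451, 11519, 12579, 12774, 13532, 13546] : List ℕ), B.chkB K.leaf2 r = true := by
  intro r h
  simp only [List.mem_cons, List.not_mem_nil, or_false] at h
  rcases h with h | h | h | h | h | h | h | h | h | h
  · rw [h]; exact x31
  · rw [h]; exact x1071
  · rw [h]; exact x7295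
  · rw [h]; exact x7391
  · rw [h]; exact x11451
  · rw [h]; exact x11519
  · rw [h]; exact x12579
  · rw [h]; exact x12774
  · rw [h]; exact x13532
  · rw [h]; exact x13546

end Pool.Agent.Y440.L
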