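import Pool.Agent.Y440.K.Fast
import Pool.Agent.Y440.B.Blk

/-! The inequality for all extensions of some of the structures on seven points. -/

set_option autoImplicit false
set_option maxRecDepth 100000

namespace Pool.Agent.Y440.L

open Pool.Agent.Y440

def x23 : B.chkB K.leaf2 23 = true := by decide +kernel

def x1244 : B.chkB K.leaf2 1244 = true := by decide +kernel

def x3126 : B.chkB K.leaf2 3126 = true := by decide +kernel

def x3167 : B.chkB K.leaf2 3167 = true := by decide +kernel

def x3198 : B.chkB K.leaf2 3198 = true := by decide +kernel

def x3364 : B.chkB K.leaf2 3364 = true := by decide +kernel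

def x13544 : B.chkB K.leaf2 13544 = true := by decide +kernel

def x13551 : B.chkB K.leaf2 13551 = true := by decide +kernel

def x97787 : B.chkB K.leaf2 97787 = true := by decide +kernel

def x119631 : B.chkB K.leaf2 119631 = true := by decide +kernel

theorem m36 : ∀ r ∈ ([23, 1244, 3126, 3167, 3198, 3364, 13544, 13551, 97787, 119631] : List ℕ), B.chkB K.leaf2 r = true := by
  intro r h
  simp only [List.mem_cons, List.not_mem_nil, or_false] at h
  rcases h with h | h | h | h | h | h | h | h | h | h
  · rw [h]; exact x23
  · rw [h]; exact x1244
  · rw [h]; exact x3126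
  · rw [h]; exact x3167
  · rw [h]; exact x3198
  · rw [h]; exact x3364
  · rw [h]; exact x13544
  · rw [h]; exact x13551
  · rw [h]; exact x97787
  · rw [h]; exact x119631

end Pool.Agent.Y440.L
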