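import Pool.Agent.Y440.K.Fast
import Pool.Agent.Y440.B.Blk

/-! The inequality for all extensions of some of the structures on seven points. -/

set_option autoImplicit false
set_option maxRecDepth 100000

namespace Pool.Agent.Y440.L

open Pool.Agent.Y440

def x1053 : B.chkB K.leaf2 1053 = true := by decide +kernel

def x1193 : B.chkB K.leaf2 1193 = true := by decide +kernel

def x3258 : B.chkB K.leaf2 3258 = true := by decide +kernel

def x3347 : B.chkB K.leaf2 3347 = true := by decide +kernel

def x13535 : B.chkB K.leaf2 13535 = true := by decide +kernel

def x13820 : B.chkB K.leaf2 13820 = true := by decide +kernel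

def x15606 : B.chkB K.leaf2 15606 = true := by decide +kernel

def x81263 : B.chkB K.leaf2 81263 = true := by decide +kernel

theorem m37 : ∀ r ∈ ([1053, 1193, 3258, 3347, 13535, 13820, 15606, 81263] : List ℕ), B.chkB K.leaf2 r = true := by
  intro r h
  simp only [List.mem_cons, List.not_mem_nil, or_false] at h
  rcases h with h | h | h | h | h | h | h | h
  · rw [h]; exact x1053
  · rw [h]; exact x1193
  · rw [h]; exact x3258
  · rw [h]; exact x3347
  · rw [h]; exact x13535
  · rw [h]; exact x13820
  · rw [h]; exact x15606
  · rw [h]; exact x81263

end Pool.Agent.Y440.L
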