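import Pool.Agent.Y440.K.Fast
import Pool.Agent.Y440.B.Blk

/-! The inequality for all extensions of some of the structures on seven points. -/

set_option autoImplicit false
set_option maxRecDepth 100000

namespace Pool.Agent.Y440.L

open Pool.Agent.Y440

def x21 : B.chkB K.leaf2 21 = true := by decide +kernel

def x1208 : B.chkB K.leaf2 1208 = true := by decide +kernel

def x3418 : B.chkB K.leaf2 3418 = true := by decide +kernel

def x3438 : B.chkB K.leaf2 3438 = true := by decide +kernel

def x13542 : B.chkB K.leaf2 13542 = true := by decide +kernel

def x13823 : B.chkB K.leaf2 13823 = true := by decide +kernel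

def x15800 : B.chkB K.leaf2 15800 = true := by decide +kernel

def x79087 : B.chkB K.leaf2 79087 = true := by decide +kernel

theorem m38 : ∀ r ∈ ([21, 1208, 3418, 3438, 13542, 13823, 15800, 79087] : List ℕ), B.chkB K.leaf2 r = true := by
  intro r h
  simp only [List.mem_cons, List.not_mem_nil, or_false] at h
  rcases h with h | h | h | h | h | h | h | h
  · rw [h]; exact x21
  · rw [h]; exact x1208
  · rw [h]; exact x3418
  · rw [h]; exact x3438
  · rw [h]; exact x13542
  · rw [h]; exact x13823
  · rw [h]; exact x15800
  · rw [h]; exact x79087

end Pool.Agent.Y440.L
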