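import Pool.Agent.Y440.K.Fast
import Pool.Agent.Y440.B.Blk

/-! The inequality for all extensions of some of the structures on seven points. -/

set_option autoImplicit false
set_option maxRecDepth 100000

namespace Pool.Agent.Y440.L

open Pool.Agent.Y440

def x54 : B.chkB K.leaf2 54 = true := by decide +kernel

def x126 : B.chkB K.leaf2 126 = true := by decide +kernel

def x3225 : B.chkB K.leaf2 3225 = true := by decide +kernel

def x3327 : B.chkB K.leaf2 3327 = true := by decide +kernel

def x13687 : B.chkB K.leaf2 13687 = true := by decide +kernel

def x15795 : B.chkB K.leaf2 15795 = true := by decide +kernel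

def x31207 : B.chkB K.leaf2 31207 = true := by decide +kernel

def x32255 : B.chkB K.leaf2 32255 = true := by decide +kernel

def x79269 : B.chkB K.leaf2 79269 = true := by decide +kernel

def x241514 : B.chkB K.leaf2 241514 = true := by decide +kernel

theorem m39 : ∀ r ∈ ([54, 126, 3225, 3327, 13687, 15795, 31207, 32255, 79269, 241514] : List ℕ), B.chkB K.leaf2 r = true := by
  intro r h
  simp only [List.mem_cons, List.not_mem_nil, or_false] at h
  rcases h with h | h | h | h | h | h | h | h | h | h
  · rw [h]; exact x54
  · rw [h]; exact x126
  · rw [h]; exact x3225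
  · rw [h]; exact x3327
  · rw [h]; exact x13687
  · rw [h]; exact x15795
  · rw [h]; exact x31207
  · rw [h]; exact x32255
  · rw [h]; exact x79269
  · rw [h]; exact x241514

end Pool.Agent.Y440.L
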