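import Pool.Agent.Y440.K.Fast
import Pool.Agent.Y440.B.Blk

/-! The inequality for all extensions of some of the structures on seven points. -/

set_option autoImplicit false
set_option maxRecDepth 100000

namespace Pool.Agent.Y440.L

open Pool.Agent.Y440

def x62 : B.chkB K.leaf2 62 = true := by decide +kernel

def x1189 : B.chkB K.leaf2 1189 = true := by decide +kernel

def x1215 : B.chkB K.leaf2 1215 = true := by decide +kernel

def x1231 : B.chkB K.leaf2 1231 = true := by decide +kernel

def x3375 : B.chkB K.leaf2 3375 = true := by decide +kernel

def x12503 : B.chkB K.leaf2 12503 = true := by decide +kernel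

def x13804 : B.chkB K.leaf2 13804 = true := by decide +kernel

def x79340 : B.chkB K.leaf2 79340 = true := by decide +kernel

theorem m40 : ∀ r ∈ ([62, 1189, 1215, 1231, 3375, 12503, 13804, 79340] : List ℕ), B.chkB K.leaf2 r = true := by
  intro r h
  simp only [List.mem_cons, List.not_mem_nil, or_false] at h
  rcases h with h | h | h | h | h | h | h | h
  · rw [h]; exact x62
  · rw [h]; exact x1189
  · rw [h]; exact x1215
  · rw [h]; exact x1231
  · rw [h]; exact x3375
  · rw [h]; exact x12503
  · rw [h]; exact x13804
  · rw [h]; exact x79340

end Pool.Agent.Y440.L
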