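import Pool.Agent.Y440.K.Fast
import Pool.Agent.Y440.B.Blk

/-! The inequality for all extensions of some of the structures on seven points. -/

set_option autoImplicit false
set_option maxRecDepth 100000

namespace Pool.Agent.Y440.L

open Pool.Agent.Y440

def x58 : B.chkB K.leaf2 58 = true := by decide +kernel

def x1045 : B.chkB K.leaf2 1045 = true := by decide +kernel

def x3227 : B.chkB K.leaf2 3227 = true := by decide +kernel

def x7354 : B.chkB K.leaf2 7354 = true := by decide +kernel

def x11476 : B.chkB K.leaf2 11476 = true := by decide +kernel

def x13562 : B.chkB K.leaf2 13562 = true := by decide +kernel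

def x78191 : B.chkB K.leaf2 78191 = true := by decide +kernel

def x96757 : B.chkB K.leaf2 96757 = true := by decide +kernel

theorem m41 : ∀ r ∈ ([58, 1045, 3227, 7354, 11476, 13562, 78191, 96757] : List ℕ), B.chkB K.leaf2 r = true := by
  intro r h
  simp only [List.mem_cons, List.not_mem_nil, or_false] at h
  rcases h with h | h | h | h | h | h | h | h
  · rw [h]; exact x58
  · rw [h]; exact x1045
  · rw [h]; exact x3227
  · rw [h]; exact x7354
  · rw [h]; exact x11476
  · rw [h]; exact x13562
  · rw [h]; exact x78191
  · rw [h]; exact x96757

end Pool.Agent.Y440.L
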