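import Pool.Agent.Y440.K.Fast
import Pool.Agent.Y440.B.Blk

/-! The inequality for all extensions of some of the structures on seven points. -/

set_option autoImplicit false
set_option maxRecDepth 100000

namespace Pool.Agent.Y440.L

open Pool.Agent.Y440

def x1 : B.chkB K.leaf2 1 = true := by decide +kernel

def x19 : B.chkB K.leaf2 19 = true := by decide +kernel

def x3223 : B.chkB K.leaf2 3223 = true := by decide +kernel

def x11458 : B.chkB K.leaf2 11458 = true := by decide +kernel

def x12487 : B.chkB K.leaf2 12487 = true := by decide +kernel

def x13692 : B.chkB K.leaf2 13692 = true := by decide +kernel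

def x15733 : B.chkB K.leaf2 15733 = true := by decide +kernel

def x88558 : B.chkB K.leaf2 88558 = true := by decide +kernel

def x89599 : B.chkB K.leaf2 89599 = true := by decide +kernel

def x120812 : B.chkB K.leaf2 120812 = true := by decide +kernel

theorem m42 : ∀ r ∈ ([1, 19, 3223, 11458, 12487, 13692, 15733, 88558, 89599, 120812] : List ℕ), B.chkB K.leaf2 r = true := by
  intro r h
  simp only [List.mem_cons, List.not_mem_nil, or_false] at h
  rcases h with h | h | h | h | h | h | h | h | h | h
  · rw [h]; exact x1
  · rw [h]; exact x19
  · rw [h]; exact x3223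
  · rw [h]; exact x11458
  · rw [h]; exact x12487
  · rw [h]; exact x13692
  · rw [h]; exact x15733
  · rw [h]; exact x88558
  · rw [h]; exact x89599
  · rw [h]; exact x120812

end Pool.Agent.Y440.L
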