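import Pool.Agent.Y440.K.Fast
import Pool.Agent.Y440.B.Blk

/-! The inequality for all extensions of some of the structures on seven points. -/

set_option autoImplicit false
set_option maxRecDepth 100000

namespace Pool.Agent.Y440.L

open Pool.Agent.Y440

def x1083 : B.chkB K.leaf2 1083 = true := by decide +kernel

def x1132 : B.chkB K.leaf2 1132 = true := by decide +kernel

def x3402 : B.chkB K.leaf2 3402 = true := by decide +kernel

def x7359 : B.chkB K.leaf2 7359 = true := by decide +kernel

def x11482 : B.chkB K.leaf2 11482 = true := by decide +kernel

def x12486 : B.chkB K.leaf2 12486 = true := by decide +kernel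

def x12509 : B.chkB K.leaf2 12509 = true := by decide +kernel

def x15861 : B.chkB K.leaf2 15861 = true := by decide +kernel

def x122841 : B.chkB K.leaf2 122841 = true := by decide +kernel

theorem m43 : ∀ r ∈ ([1083, 1132, 3402, 7359, 11482, 12486, 12509, 15861, 122841] : List ℕ), B.chkB K.leaf2 r = true := by
  intro r h
  simp only [List.mem_cons, List.not_mem_nil, or_false] at h
  rcases h with h | h | h | h | h | h | h | h | h
  · rw [h]; exact x1083
  · rw [h]; exact x1132
  · rw [h]; exact x3402
  · rw [h]; exact x7359
  · rw [h]; exact x11482
  · rw [h]; exact x12486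
  · rw [h]; exact x12509
  · rw [h]; exact x15861
  · rw [h]; exact x122841

end Pool.Agent.Y440.L
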