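import Pool.Agent.Y440.K.Fast
import Pool.Agent.Y440.B.Blk

/-! The inequality for all extensions of some of the structures on seven points. -/

set_option autoImplicit false
set_option maxRecDepth 100000

namespace Pool.Agent.Y440.L

open Pool.Agent.Y440

def x3 : B.chkB K.leaf2 3 = true := by decide +kernel

def x1229 : B.chkB K.leaf2 1229 = true := by decide +kernel

def x3130 : B.chkB K.leaf2 3130 = true := by decide +kernel

def x7358 : B.chkB K.leaf2 7358 = true := by decide +kernel

def x13565 : B.chkB K.leaf2 13565 = true := by decide +kernel

def x13567 : B.chkB K.leaf2 13567 = true := by decide +kernel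

def x32252 : B.chkB K.leaf2 32252 = true := by decide +kernel

def x76991 : B.chkB K.leaf2 76991 = true := by decide +kernel

theorem m44 : ∀ r ∈ ([3, 1229, 3130, 7358, 13565, 13567, 32252, 76991] : List ℕ), B.chkB K.leaf2 r = true := by
  intro r h
  simp only [List.mem_cons, List.not_mem_nil, or_false] at h
  rcases h with h | h | h | h | h | h | h | h
  · rw [h]; exact x3
  · rw [h]; exact x1229
  · rw [h]; exact x3130
  · rw [h]; exact x7358
  · rw [h]; exact x13565
  · rw [h]; exact x13567
  · rw [h]; exact x32252
  · rw [h]; exact x76991

end Pool.Agent.Y440.L
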