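import Pool.Agent.Y440.K.Fast
import Pool.Agent.Y440.B.Blk

/-! The inequality for all extensions of some of the structures on seven points. -/

set_option autoImplicit false
set_option maxRecDepth 100000

namespace Pool.Agent.Y440.L

open Pool.Agent.Y440

def x1062 : B.chkB K.leaf2 1062 = true := by decide +kernel

def x1199 : B.chkB K.leaf2 1199 = true := by decide +kernel

def x1212 : B.chkB K.leaf2 1212 = true := by decide +kernel

def x11486 : B.chkB K.leaf2 11486 = true := by decide +kernel

def x11507 : B.chkB K.leaf2 11507 = true := by decide +kernel

def x15837 : B.chkB K.leaf2 15837 = true := by decide +kernel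

def x79102 : B.chkB K.leaf2 79102 = true := by decide +kernel

def x79103 : B.chkB K.leaf2 79103 = true := by decide +kernel

theorem m45 : ∀ r ∈ ([1062, 1199, 1212, 11486, 11507, 15837, 79102, 79103] : List ℕ), B.chkB K.leaf2 r = true := by
  intro r h
  simp only [List.mem_cons, List.not_mem_nil, or_false] at h
  rcases h with h | h | h | h | h | h | h | h
  · rw [h]; exact x1062
  · rw [h]; exact x1199
  · rw [h]; exact x1212
  · rw [h]; exact x11486
  · rw [h]; exact x11507
  · rw [h]; exact x15837
  · rw [h]; exact x79102
  · rw [h]; exact x79103

end Pool.Agent.Y440.L
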