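import Pool.Agent.Y440.K.Fast
import Pool.Agent.Y440.B.Blk

/-! The inequality for all extensions of some of the structures on seven points. -/

set_option autoImplicit false
set_option maxRecDepth 100000

namespace Pool.Agent.Y440.L

open Pool.Agent.Y440

def x1065 : B.chkB K.leaf2 1065 = true := by decide +kernel

def x1087 : B.chkB K.leaf2 1087 = true := by decide +kernel

def x1151 : B.chkB K.leaf2 1151 = true := by decide +kernel

def x3231 : B.chkB K.leaf2 3231 = true := by decide +kernel

def x3369 : B.chkB K.leaf2 3369 = true := by decide +kernel

def x11462 : B.chkB K.leaf2 11462 = true := by decide +kernel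

def x77002 : B.chkB K.leaf2 77002 = true := by decide +kernel

def x79214 : B.chkB K.leaf2 79214 = true := by decide +kernel

theorem m46 : ∀ r ∈ ([1065, 1087, 1151, 3231, 3369, 11462, 77002, 79214] : List ℕ), B.chkB K.leaf2 r = true := by
  intro r h
  simp only [List.mem_cons, List.not_mem_nil, or_false] at h
  rcases h with h | h | h | h | h | h | h | h
  · rw [h]; exact x1065
  · rw [h]; exact x1087
  · rw [h]; exact x1151
  · rw [h]; exact x3231
  · rw [h]; exact x3369
  · rw [h]; exact x11462
  · rw [h]; exact x77002
  · rw [h]; exact x79214

end Pool.Agent.Y440.L
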