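import Pool.Agent.Y440.K.Fast
import Pool.Agent.Y440.B.Blk

/-! The inequality for all extensions of some of the structures on seven points. -/

set_option autoImplicit false
set_option maxRecDepth 100000

namespace Pool.Agent.Y440.L

open Pool.Agent.Y440

def x1082 : B.chkB K.leaf2 1082 = true := by decide +kernel

def x3275 : B.chkB K.leaf2 3275 = true := by decide +kernel

def x3291 : B.chkB K.leaf2 3291 = true := by decide +kernel

def x11449 : B.chkB K.leaf2 11449 = true := by decide +kernel

def x11518 : B.chkB K.leaf2 11518 = true := by decide +kernel

def x15868 : B.chkB K.leaf2 15868 = true := by decide +kernel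

def x79277 : B.chkB K.leaf2 79277 = true := by decide +kernel

def x96763 : B.chkB K.leaf2 96763 = true := by decide +kernel

theorem m47 : ∀ r ∈ ([1082, 3275, 3291, 11449, 11518, 15868, 79277, 96763] : List ℕ), B.chkB K.leaf2 r = true := by
  intro r h
  simp only [List.mem_cons, List.not_mem_nil, or_false] at h
  rcases h with h | h | h | h | h | h | h | h
  · rw [h]; exact x1082
  · rw [h]; exact x3275
  · rw [h]; exact x3291
  · rw [h]; exact x11449
  · rw [h]; exact x11518
  · rw [h]; exact x15868
  · rw [h]; exact x79277
  · rw [h]; exact x96763

end Pool.Agent.Y440.L
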