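import Pool.Agent.Y440.L.M00
import Pool.Agent.Y440.L.M01
import Pool.Agent.Y440.L.M02
import Pool.Agent.Y440.L.M03
import Pool.Agent.Y440.L.M04
import Pool.Agent.Y440.L.M05
import Pool.Agent.Y440.L.M06
import Pool.Agent.Y440.L.M07
import Pool.Agent.Y440.L.M08
import Pool.Agent.Y440.L.M09
import Pool.Agent.Y440.L.M10
import Pool.Agent.Y440.L.M11
import Pool.Agent.Y440.L.M12
import Pool.Agent.Y440.L.M13
import Pool.Agent.Y440.L.M14
import Pool.Agent.Y440.L.M15
import Pool.Agent.Y440.L.M16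
import Pool.Agent.Y440.L.M17
import Pool.Agent.Y440.L.M18
import Pool.Agent.Y440.L.M19
import Pool.Agent.Y440.L.M20
import Pool.Agent.Y440.L.M21
import Pool.Agent.Y440.L.M22
import Pool.Agent.Y440.L.M23
import Pool.Agent.Y440.L.M24
import Pool.Agent.Y440.L.M25
import Pool.Agent.Y440.L.M26
import Pool.Agent.Y440.L.M27
import Pool.Agent.Y440.L.M28
import Pool.Agent.Y440.L.M29
import Pool.Agent.Y440.L.M30
import Pool.Agent.Y440.L.M31
import Pool.Agent.Y440.L.M32
import Pool.Agent.Y440.L.M33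
import Pool.Agent.Y440.L.M34
import Pool.Agent.Y440.L.M35
import Pool.Agent.Y440.L.M36
import Pool.Agent.Y440.L.M37
import Pool.Agent.Y440.L.M38
import Pool.Agent.Y440.L.M39
import Pool.Agent.Y440.L.M40
import Pool.Agent.Y440.L.M41
import Pool.Agent.Y440.L.M42
import Pool.Agent.Y440.L.M43
import Pool.Agent.Y440.L.M44
import Pool.Agent.Y440.L.M45
import Pool.Agent.Y440.L.M46
import Pool.Agent.Y440.L.M47
import Pool.Agent.Y440.A.Reps

/-! The inequality for all extensions of the 423 structures on seven points. -/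

set_option autoImplicit false
set_option maxRecDepth 100000

namespace Pool.Agent.Y440.L

open Pool.Agent.Y440

theorem ap {P : ℕ → Prop} {l m : List ℕ} (h : ∀ r ∈ l, P r) (k : ∀ r ∈ m, P r) : ∀ r ∈ l ++ m, P r := by
  intro r hr
  rcases List.mem_append.mp hr with h1 | h1
  · exact h r h1
  · exact k r h1

def lst : List ℕ := ((((([1047, 1207, 11447, 11471, 11514, 12576, 15839, 88519] ++ ([3386, 3400, 11448, 12537, 12771, 15610, 76987, 78046] ++ [1196, 3349, 11510, 12511, 13797, 31201, 65527, 78045, 78140])) ++ ([1135, 1188, 3383, 13685, 15864, 31205, 78137, 79231] ++ ([1192, 3454, 7389, 11459, 13561, 15732, 15740, 15866, 120813] ++ [1064, 1279, 3420, 7388, 13547, 31203, 76985, 81151]))) ++ (([0, 1052, 3351, 3390, 7375, 7386, 11485, 15609, 79070, 88542] ++ ([59, 1150, 3219, 3374, 15803, 31215, 78044, 89564] ++ [29, 3422, 12646, 13798, 31221, 78142, 79068, 79069])) ++ ([15, 3366, 11463, 11484, 12502, 12539, 13684, 65535, 97783, 120805] ++ ([7, 1211, 3134,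 3221, 3372, 3388, 12783, 81260] ++ [28, 1063, 11480, 15801, 15828, 65520, 79071, 88527, 97791])))) ++ ((([1070, 7369, 11475, 11512, 12768, 13689, 15615, 31219, 31220, 65523] ++ ([1516, 3228, 3373, 7353, 15836, 79086, 79212, 81261] ++ [1197, 3229, 3290, 7422, 11481, 13814, 15869, 96761])) ++ ([1245, 1261, 3389, 78172, 79308, 79309, 81279, 88540, 1048575] ++ ([3224, 3295, 11479, 12583, 13566, 15741, 15827, 77020, 120815] ++ [1066, 1079, 3135, 3385, 13812, 79213, 79215, 79341]))) ++ (([1260, 3166, 3259, 3279, 12643, 13533, 15865, 78190, 122835] ++ ([20, 1247, 3164, 7390, 11477, 12591, 12651, 78047] ++ [3273, 11487, 13564, 13796, 13821, 31217, 76983, 78141])) ++ ([1228, 3220, 3292, 3391, 7387, 12775, 81262, 88535, 241503, 242467] ++ ([1044, 3359, 3367, 7352, 12543, 13550, 15608, 32243, 78174] ++ [1535, 3127, 3370, 3439, 7355, 12640, 15867, 79310, 89559, 119807]))))) ++ (((([3165, 3256, 3294, 3356, 3382, 13813, 15614, 89565] ++ ([220, 3262, 3357, 3421, 77006,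 79196, 122843, 241518, 243558] ++ [1085, 1086, 3371, 3436, 11478, 12495, 13560, 13811, 78143])) ++ ([1133, 1195, 3263, 7423, 11465, 11515, 13558, 31200, 78134, 88575] ++ ([1134, 1191, 3326, 3387, 7371, 11455, 13526, 15611, 15859, 89567] ++ [3131, 3199, 3365, 3419, 7350, 11467, 12508, 13815, 32245, 241500]))) ++ (([1043, 1213, 3254, 3257, 7351, 12534, 13545, 13563] ++ ([1209, 3293, 3348, 7294, 12647, 15804, 31228, 78031, 78207] ++ [1084, 3423, 11443, 11483, 11511, 12535, 13693, 32247, 78079, 122844])) ++ ([1055, 1067, 3350, 11513, 12655, 13543, 13686, 76984, 88534, 88543] ++ ([1078, 1262, 1263, 3255, 3455, 13795, 15829, 89580] ++ [31, 1071, 7295, 7391, 11451, 11519, 12579, 12774, 13532, 13546])))) ++ ((([23, 1244, 3126, 3167, 3198, 3364, 13544, 13551, 97787, 119631] ++ ([1053, 1193, 3258, 3347, 13535, 13820, 15606, 81263] ++ [21, 1208, 3418, 3438, 13542, 13823, 15800, 79087])) ++ ([54, 126, 3225, 3327, 13687, 15795, 31207, 32255, 79269, 241514] ++ ([62,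 1189, 1215, 1231, 3375, 12503, 13804, 79340] ++ [58, 1045, 3227, 7354, 11476, 13562, 78191, 96757]))) ++ (([1, 19, 3223, 11458, 12487, 13692, 15733, 88558, 89599, 120812] ++ ([1083, 1132, 3402, 7359, 11482, 12486, 12509, 15861, 122841] ++ [3, 1229, 3130, 7358, 13565, 13567, 32252, 76991])) ++ ([1062, 1199, 1212, 11486, 11507, 15837, 79102, 79103] ++ ([1065, 1087, 1151, 3231, 3369, 11462, 77002, 79214] ++ [1082, 3275, 3291, 11449, 11518, 15868, 79277, 96763]))))))

theorem sub : ∀ r ∈ A.reps, r ∈ lst := by decide +kernel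

theorem allL : ∀ r ∈ lst, B.chkB K.leaf2 r = true :=
  (ap (ap (ap (ap (ap m00 (ap m01 m02)) (ap m03 (ap m04 m05))) (ap (ap m06 (ap m07 m08)) (ap m09 (ap m10 m11)))) (ap (ap (ap m12 (ap m13 m14)) (ap m15 (ap m16 m17))) (ap (ap m18 (ap m19 m20)) (ap m21 (ap m22 m23))))) (ap (ap (ap (ap m24 (ap m25 m26)) (ap m27 (ap m28 m29))) (ap (ap m30 (ap m31 m32)) (ap m33 (ap m34 m35)))) (ap (ap (ap m36 (ap m37 m38)) (ap m39 (ap m40 m41))) (ap (ap m42 (ap m43 m44)) (ap m45 (ap m46 m47))))))

theorem all : ∀ r ∈ A.reps, B.chkB K.leaf2 r = true := fun r hr => allL r (sub r hr)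

end Pool.Agent.Y440.L
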