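import Pool.Agent.Y440.K.Fast
import Pool.Agent.Y440.B.Blk

/-! The inequality for all extensions of some of the structures on seven points. -/

set_option autoImplicit false
set_option maxRecDepth 100000

namespace Pool.Agent.Y440.L

open Pool.Agent.Y440

def x1047 : B.chkB K.leaf2 1047 = true := by decide +kernel

def x1207 : B.chkB K.leaf2 1207 = true := by decide +kernel

def x11447 : B.chkB K.leaf2 11447 = true := by decide +kernel

def x11471 : B.chkB K.leaf2 11471 = true := by decide +kernel

def x11514 : B.chkB K.leaf2 11514 = true := by decide +kernel

def x12576 : B.chkB K.leaf2 12576 = true := by decide +kernel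

def x15839 : B.chkB K.leaf2 15839 = true := by decide +kernel

def x88519 : B.chkB K.leaf2 88519 = true := by decide +kernel

theorem m00 : ∀ r ∈ ([1047, 1207, 11447, 11471, 11514, 12576, 15839, 88519] : List ℕ), B.chkB K.leaf2 r = true := by
  intro r h
  simp only [List.mem_cons, List.not_mem_nil, or_false] at h
  rcases h with h | h | h | h | h | h | h | h
  · rw [h]; exact x1047
  · rw [h]; exact x1207
  · rw [h]; exact x11447
  · rw [h]; exact x11471
  · rw [h]; exact x11514
  · rw [h]; exact x12576
  · rw [h]; exact x15839
  · rw [h]; exact x88519

end Pool.Agent.Y440.L
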