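import Pool.Agent.Y440.K.Fast
import Pool.Agent.Y440.B.Blk

/-! The inequality for all extensions of some of the structures on seven points. -/

set_option autoImplicit false
set_option maxRecDepth 100000

namespace Pool.Agent.Y440.L

open Pool.Agent.Y440

def x3224 : B.chkB K.leaf2 3224 = true := by decide +kernel

def x3295 : B.chkB K.leaf2 3295 = true := by decide +kernel

def x11479 : B.chkB K.leaf2 11479 = true := by decide +kernel

def x12583 : B.chkB K.leaf2 12583 = true := by decide +kernel

def x13566 : B.chkB K.leaf2 13566 = true := by decide +kernel

def x15741 : B.chkB K.leaf2 15741 = true := by decide +kernel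

def x15827 : B.chkB K.leaf2 15827 = true := by decide +kernel

def x77020 : B.chkB K.leaf2 77020 = true := by decide +kernel

def x120815 : B.chkB K.leaf2 120815 = true := by decide +kernel

theorem m16 : ∀ r ∈ ([3224, 3295, 11479, 12583, 13566, 15741, 15827, 77020, 120815] : List ℕ), B.chkB K.leaf2 r = true := by
  intro r h
  simp only [List.mem_cons, List.not_mem_nil, or_false] at h
  rcases h with h | h | h | h | h | h | h | h | h
  · rw [h]; exact x3224
  · rw [h]; exact x3295
  · rw [h]; exact x11479
  · rw [h]; exact x12583
  · rw [h]; exact x13566
  · rw [h]; exact x15741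
  · rw [h]; exact x15827
  · rw [h]; exact x77020
  · rw [h]; exact x120815

end Pool.Agent.Y440.L
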