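import Pool.Agent.Y440.K.Fast
import Pool.Agent.Y440.B.Blk

/-! The inequality for all extensions of some of the structures on seven points. -/

set_option autoImplicit false
set_option maxRecDepth 100000

namespace Pool.Agent.Y440.L

open Pool.Agent.Y440

def x1055 : B.chkB K.leaf2 1055 = true := by decide +kernel

def x1067 : B.chkB K.leaf2 1067 = true := by decide +kernel

def x3350 : B.chkB K.leaf2 3350 = true := by decide +kernel

def x11513 : B.chkB K.leaf2 11513 = true := by decide +kernel

def x12655 : B.chkB K.leaf2 12655 = true := by decide +kernel

def x13543 : B.chkB K.leaf2 13543 = true := by decide +kernel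

def x13686 : B.chkB K.leaf2 13686 = true := by decide +kernel

def x76984 : B.chkB K.leaf2 76984 = true := by decide +kernel

def x88534 : B.chkB K.leaf2 88534 = true := by decide +kernel

def x88543 : B.chkB K.leaf2 88543 = true := by decide +kernel

theorem m33 : ∀ r ∈ ([1055, 1067, 3350, 11513, 12655, 13543, 13686, 76984, 88534, 88543] : List ℕ), B.chkB K.leaf2 r = true := by
  intro r h
  simp only [List.mem_cons, List.not_mem_nil, or_false] at h
  rcases h with h | h | h | h | h | h | h | h | h | h
  · rw [h]; exact x1055
  · rw [h]; exact x1067
  · rw [h]; exact x3350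
  · rw [h]; exact x11513
  · rw [h]; exact x12655
  · rw [h]; exact x13543
  · rw [h]; exact x13686
  · rw [h]; exact x76984
  · rw [h]; exact x88534
  · rw [h]; exact x88543

end Pool.Agent.Y440.L
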